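import Pool.Agent.Lib_MP_33f7bb_m.G30

/-!
# MP_33f7bb_an, Q1: negative answer

There is an infinite dimensional compact metric space all of whose group actions (in particular the
action of the trivial group) have sofic mean dimension at most `2`.
-/

namespace Pool.Agent.Results.MP_33f7bb_an.Disproof

theorem result : ¬ SMD.Q1 := MM.not_Q1_holds

end Pool.Agent.Results.MP_33f7bb_an.Disproof
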